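import Pool.Agent.Lib.MP_972ec5_co.NE.Core

/-! A spectral gap gives connectedness; bounded distance gives boundedly many vertices. -/

namespace Pool.Agent.Lib.MP_972ec5_co.NE

open Finset Matrix Classical

variable {V : Type}

lemma conn [hf : Finite V] (H : SimpleGraph V) {d : ℕ} {ε : ℝ} (hR : Reg H d) (hε : 0 < ε)
    (hl : lam2 H ≤ d - ε) : H.Preconnected := by
  let _ := @Fintype.ofFinite V hf
  intro u v
  by_contra huv
  have h1 : 1 < Fintype.card V :=
    Fintype.one_lt_card_iff.2 ⟨u, v, fun e => huv (e ▸ SimpleGraph.Reachable.refl u)⟩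
  unfold lam2 at hl
  rw [dif_pos h1] at hl
  set hA := H.isHermitian_adjMatrix ℝ
  set e : Fin (Fintype.card V) ≃ V := Fintype.equivOfCardEq (Fintype.card_fin _)
  set i0 := e ⟨0, by omega⟩
  have hev : ∀ i, i ≠ i0 → hA.eigenvalues i < d := by
    intro i hi
    obtain ⟨j, rfl⟩ := e.surjective i
    have : hA.eigenvalues (e j) = hA.eigenvalues₀ j := by
      simp [Matrix.IsHermitian.eigenvalues, e]
    rw [this]
    have hj : (⟨1, h1⟩ : Fin _) ≤ j := by
      rw [Fin.le_def]
      have : j.val ≠ 0 := fun e0 => hi (congrArg e (Fin.ext e0))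
      simp only
      omega
    have := hA.eigenvalues₀_antitone hj
    linarith
  have hdeg : ∀ v, H.degree v = d := fun v => by
    rw [← hR v, ← SimpleGraph.card_neighborSet_eq_degree, Set.ncard_eq_toFinset_card',
      Set.toFinset_card]
  set f : V → V → ℝ := fun s w => if H.Reachable s w then 1 else 0
  have hf' : ∀ s, H.adjMatrix ℝ *ᵥ f s = (d : ℝ) • f s := by
    intro s
    ext w
    rw [SimpleGraph.adjMatrix_mulVec_apply]
    have : ∀ t ∈ H.neighborFinset w, f s t = f s w := by
      intro t ht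
      have := ((H.mem_neighborFinset _ _).1 ht).reachable
      have : H.Reachable s t ↔ H.Reachable s w := ⟨fun r => r.trans this.symm, fun r => r.trans this⟩
      simp only [f, this]
    rw [sum_congr rfl this, sum_const, SimpleGraph.card_neighborFinset_eq_degree, hdeg]
    simp
  set b0 : V → ℝ := ⇑(hA.eigenvectorBasis i0)
  obtain ⟨α, β, hab, hs⟩ : ∃ α β : ℝ, (α ≠ 0 ∨ β ≠ 0) ∧ α * (f u ⬝ᵥ b0) + β * (f v ⬝ᵥ b0) = 0 := by
    by_cases h : f v ⬝ᵥ b0 = 0
    · exact ⟨0, 1, by norm_num, by simp [h]⟩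
    · exact ⟨f v ⬝ᵥ b0, -(f u ⬝ᵥ b0), Or.inl h, by ring⟩
  set g : V → ℝ := α • f u + β • f v
  have hg : H.adjMatrix ℝ *ᵥ g = (d : ℝ) • g := by
    simp only [g, mulVec_add, mulVec_smul, hf', smul_add]
    rw [smul_comm α, smul_comm β]
  have hz : ∀ i, g ⬝ᵥ ⇑(hA.eigenvectorBasis i) = 0 := by
    intro i
    by_cases hi : i = i0
    · subst hi
      simpa [g, add_dotProduct, smul_dotProduct] using hs
    · have m := hA.mulVec_eigenvectorBasis i
      have t : g ⬝ᵥ (H.adjMatrix ℝ *ᵥ ⇑(hA.eigenvectorBasis i)) =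
          (H.adjMatrix ℝ *ᵥ g) ⬝ᵥ ⇑(hA.eigenvectorBasis i) := by
        rw [dotProduct_mulVec, ← mulVec_transpose, SimpleGraph.transpose_adjMatrix]
      rw [m, hg, dotProduct_smul, smul_dotProduct, smul_eq_mul, smul_eq_mul] at t
      have := hev i hi
      rcases mul_eq_mul_right_iff.1 t with h | h
      · linarith
      · exact h
  have hg0 : g = 0 := by
    have := hA.eigenvectorBasis.sum_repr' (WithLp.toLp 2 g)
    have z : ∀ i, inner ℝ (hA.eigenvectorBasis i) (WithLp.toLp 2 g) = 0 := fun i => by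
      rw [EuclideanSpace.inner_eq_star_dotProduct, star_trivial]
      exact hz i
    simp only [z, zero_smul, sum_const_zero] at this
    simpa using congrArg WithLp.ofLp this.symm
  have e1 := congrFun hg0 u
  have e2 := congrFun hg0 v
  have hvu : ¬ H.Reachable v u := fun r => huv r.symm
  simp [g, f, huv, hvu] at e1 e2
  tauto

variable [Fintype V] {G : SimpleGraph V} {a b c : ℕ}

lemma ind_card (S : Set V) (u : S) :
    ((G.induce S).neighborSet u).ncard = (univ.filter fun w => w ∈ S ∧ G.Adj u w).card := by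
  rw [← Set.ncard_image_of_injective _ Subtype.val_injective, ← Set.ncard_coe_finset]
  congr 1
  ext w
  simp [SimpleGraph.mem_neighborSet]
  tauto

lemma ca_of {d : ℕ} (hR : Reg G d) : CA G d := fun v => by
  rw [← hR v, ← Set.ncard_coe_finset]
  congr 1
  ext w
  simp

lemma cb_of {ε : ℝ} (hG : Good G a b c ε) : CB G b := fun u v huv => by
  rw [← (hG.2.1 u).1 ⟨v, huv⟩, ind_card]
  congr 1
  ext w
  simp

lemma cc_of {ε : ℝ} (hG : Good G a b c ε) : CC G c := fun u v w huv huw hvw => by
  rw [← (hG.2.2 u v huv).1 ⟨w, huw, hvw⟩, ind_card]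
  congr 1
  ext t
  simp [SimpleGraph.mem_commonNeighbors, and_assoc]

lemma lip_dist (hc : G.Preconnected) (u : V) : Lip G fun v => (G.dist u v : ℤ) := fun v w hvw => by
  have := (hc u v).dist_triangle_left w
  rw [SimpleGraph.dist_eq_one_iff_adj.2 hvw] at this
  simp only
  omega

lemma step (hc : G.Preconnected) (u y : V) (hm : 0 < G.dist u y) :
    ∃ x, G.Adj x y ∧ (G.dist u y : ℤ) = G.dist u x + 1 := by
  obtain ⟨p, hp⟩ := (hc y u).exists_walk_length_eq_dist
  cases p with
  | nil => simp at hm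
  | @cons _ x _ hyx q =>
    refine ⟨x, hyx.symm, ?_⟩
    have h1 := SimpleGraph.dist_le q
    have h2 := lip_dist hc u x y hyx.symm
    rw [SimpleGraph.Walk.length_cons, SimpleGraph.dist_comm] at hp
    rw [SimpleGraph.dist_comm] at h1
    simp only at h2
    omega

lemma card_le (hc : G.Preconnected) (hA : CA G a) {D : ℕ} (hD : ∀ u v, G.dist u v ≤ D) :
    Nat.card V ≤ (a + 1) ^ D := by
  rcases isEmpty_or_nonempty V with hV | ⟨⟨u⟩⟩
  · simp
  have key : ∀ k, (univ.filter fun v => G.dist u v ≤ k).card ≤ (a + 1) ^ k := by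
    intro k
    induction k with
    | zero =>
      rw [pow_zero, card_le_one]
      intro v hv w hw
      simp only [mem_filter, mem_univ, true_and, Nat.le_zero, (hc u _).dist_eq_zero_iff] at hv hw
      rw [← hv, ← hw]
    | succ k ih =>
      have hs : (univ.filter fun v => G.dist u v ≤ k + 1) ⊆
          (univ.filter fun v => G.dist u v ≤ k).biUnion fun x => insert x (N G x) := by
        intro v hv
        simp only [mem_filter, mem_univ, true_and, mem_biUnion, mem_insert, mem_N] at hv ⊢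
        by_cases h : G.dist u v ≤ k
        · exact ⟨v, h, Or.inl rfl⟩
        · obtain ⟨x, hx, e⟩ := step hc u v (by omega)
          exact ⟨x, by omega, Or.inr hx⟩
      refine (card_le_card hs).trans ((card_biUnion_le_card_mul _ _ (a + 1) fun x _ => ?_).trans ?_)
      · exact (card_insert_le _ _).trans (by rw [hA])
      · rw [pow_succ]
        exact Nat.mul_le_mul_right _ ih
  have := key D
  rwa [filter_true_of_mem (fun v _ => hD u v), card_univ, ← Nat.card_eq_fintype_card] at this

lemma dist_le4 (hc : G.Preconnected) (hA : CA G a) (hB : CB G b) (hC : CC G c) (hH : Hp G)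
    (hh : 2 * a + 2 * c ≤ 5 * b + 1) (u x5 : V) : G.dist u x5 ≤ 4 := by
  by_contra hn
  obtain ⟨x4, a5, h5⟩ := step hc u x5 (by omega)
  obtain ⟨x3, a4, h4⟩ := step hc u x4 (by omega)
  obtain ⟨x2, a3, h3⟩ := step hc u x3 (by omega)
  obtain ⟨x1, a2, h2⟩ := step hc u x2 (by omega)
  obtain ⟨x0, a1, h1⟩ := step hc u x1 (by omega)
  have := chain5 hA hB hC hH (lip_dist hc u) a1 a2 a3 a4 a5 h1 h2 h3 h4 h5
  omega

lemma dist_le_a (hc : G.Preconnected) (hA : CA G a) (hB : CB G b) (hC : CC G c) (hH : Hp G)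
    (hh : 2 * b ≤ 3 * c + 4) (u v : V) : G.dist u v ≤ a := by
  have key : ∀ m v, G.dist u v = m → m ≤ (low G (fun v => (G.dist u v : ℤ)) v).card := by
    intro m
    induction m with
    | zero => simp
    | succ m ih =>
      intro y hy
      obtain ⟨x, hx, e⟩ := step hc u y (by omega)
      have := ih x (by omega)
      have := low_lt hB hC hH hh (lip_dist hc u) hx e
      omega
  exact (key _ v rfl).trans ((card_le_card (low_sub v)).trans (hA v).le)

lemma hp_of_link {ε : ℝ} (hε : 0 < ε) (hG : Good G a b c ε) (hh : 2 * b ≤ 3 * c + 3) : Hp G := by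
  intro x p y hp hy hne hn
  set L := G.induce (G.neighborSet x)
  have hc : L.Preconnected := conn L (hG.2.1 x).1 hε (hG.2.1 x).2
  have hA : CA L b := ca_of (hG.2.1 x).1
  have hB : CB L c := fun s t hst => by
    rw [← cc_of hG x s t s.2 t.2 hst, ← card_image_of_injective _ Subtype.val_injective]
    congr 1
    ext w
    simp [L]
    tauto
  set P : G.neighborSet x := ⟨p, hp⟩
  set Y : G.neighborSet x := ⟨y, hy⟩
  have h0 : L.dist P Y ≠ 0 := fun e => hne (congrArg Subtype.val ((hc P Y).dist_eq_zero_iff.1 e))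
  have h1 : L.dist P Y ≠ 1 := fun e => hn ((SimpleGraph.dist_eq_one_iff_adj (G := L)).1 e)
  obtain ⟨x2, a3, h3⟩ := step hc P Y (by omega)
  by_cases h2 : L.dist P x2 = 1
  · exact ⟨x2, x2.2, (SimpleGraph.dist_eq_one_iff_adj (G := L)).1 h2, a3.symm⟩
  obtain ⟨x1, a2, h2⟩ := step hc P x2 (by omega)
  obtain ⟨x0, a1, h1⟩ := step hc P x1 (by omega)
  have := chain3 hA hB (lip_dist hc P) a1 a2 a3 h1 h2 h3
  omega

end Pool.Agent.Lib.MP_972ec5_co.NE
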