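import Pool.Agent.Lib.MP_972ec5_co.Defs

/-! Counting lemmas for distance layers in `(a,b,c)`-regular graphs. -/

namespace Pool.Agent.Lib.MP_972ec5_co.NE

open Finset Classical

variable {V : Type} [Fintype V] {G : SimpleGraph V} {a b c : ℕ} {h : V → ℤ}

noncomputable def N (G : SimpleGraph V) (v : V) : Finset V := univ.filter (G.Adj v)

@[simp] lemma mem_N {v w : V} : w ∈ N G v ↔ G.Adj v w := by simp [N]

def CA (G : SimpleGraph V) (a : ℕ) : Prop := ∀ v, (N G v).card = a

def CB (G : SimpleGraph V) (b : ℕ) : Prop := ∀ u v, G.Adj u v → (N G u ∩ N G v).card = b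

def CC (G : SimpleGraph V) (c : ℕ) : Prop :=
  ∀ u v w, G.Adj u v → G.Adj u w → G.Adj v w → (N G u ∩ N G v ∩ N G w).card = c

def Lip (G : SimpleGraph V) (h : V → ℤ) : Prop := ∀ u v, G.Adj u v → h v ≤ h u + 1

noncomputable def low (G : SimpleGraph V) (h : V → ℤ) (x : V) : Finset V :=
  (N G x).filter fun v => h v + 1 = h x

@[simp] lemma mem_low {x v : V} : v ∈ low G h x ↔ G.Adj x v ∧ h v + 1 = h x := by simp [low]

def Hp (G : SimpleGraph V) : Prop :=
  ∀ x p y, G.Adj x p → G.Adj x y → p ≠ y → ¬ G.Adj p y → ∃ z, G.Adj x z ∧ G.Adj p z ∧ G.Adj y z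

lemma Lip.neg (hL : Lip G h) : Lip G (-h) := fun u v huv => by
  have := hL v u huv.symm
  simp only [Pi.neg_apply]
  omega

/-- Two subsets of `S` that avoid two given points of `S`. -/
lemma two_sub {S A B : Finset V} {p y : V} (hA : A ⊆ S) (hB : B ⊆ S) (hp : p ∈ S) (hy : y ∈ S)
    (hne : p ≠ y) (h1 : p ∉ A) (h2 : p ∉ B) (h3 : y ∉ A) (h4 : y ∉ B) :
    A.card + B.card + 2 ≤ S.card + (A ∩ B).card := by
  have e := card_union_add_card_inter A B
  have hs : insert p (insert y (A ∪ B)) ⊆ S := by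
    intro v hv
    simp only [mem_insert, mem_union] at hv
    rcases hv with rfl | rfl | hv | hv
    exacts [hp, hy, hA hv, hB hv]
  have := card_le_card hs
  rw [card_insert_of_notMem (by simp [*]), card_insert_of_notMem (by simp [*])] at this
  omega

lemma hp_of_le (hA : CA G a) (hB : CB G b) (hab : a ≤ 2 * b + 1) : Hp G := by
  intro x p y hp hy hne hn
  have := two_sub (S := N G x) (A := N G x ∩ N G p) (B := N G x ∩ N G y) (p := p) (y := y)
    inter_subset_left inter_subset_left (by simpa) (by simpa) hne (by simp)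
    (by simp [G.adj_comm y p, hn]) (by simp [hn]) (by simp)
  rw [hA, hB _ _ hp, hB _ _ hy] at this
  obtain ⟨z, hz⟩ := card_pos.1 (show 0 < (N G x ∩ N G p ∩ (N G x ∩ N G y)).card by omega)
  simp only [mem_inter, mem_N] at hz
  exact ⟨z, hz.1.1, hz.1.2, hz.2.2⟩

lemma low_disj (hL : Lip G h) {x y v : V} (hy : h y = h x + 1) (hv : v ∈ low G h x) :
    ¬ G.Adj y v := fun hyv => by
  have := hL v y hyv.symm
  have := (mem_low.1 hv).2
  omega

lemma low_sub (x : V) : low G h x ⊆ N G x := filter_subset _ _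

lemma low_le1 (hA : CA G a) (hB : CB G b) (hL : Lip G h) {x y : V} (hxy : G.Adj x y)
    (hy : h y = h x + 1) : (low G h x).card + b + 1 ≤ a := by
  have hd : Disjoint (low G h x) (insert y (N G x ∩ N G y)) := by
    rw [disjoint_left]
    intro v hv hv'
    have h1 := low_disj hL hy hv
    have h2 := (mem_low.1 hv).2
    simp only [mem_insert, mem_inter, mem_N] at hv'
    rcases hv' with rfl | hv'
    · omega
    · exact h1 hv'.2
  have hs : low G h x ∪ insert y (N G x ∩ N G y) ⊆ N G x :=
    union_subset (low_sub x) (insert_subset (by simpa) inter_subset_left)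
  have := card_le_card hs
  rw [card_union_of_disjoint hd, card_insert_of_notMem (by simp), hA, hB _ _ hxy] at this
  omega

lemma low_le2 (hA : CA G a) (hB : CB G b) (hC : CC G c) (hL : Lip G h) {x y z : V}
    (hxy : G.Adj x y) (hxz : G.Adj x z) (hyz : G.Adj y z) (hy : h y = h x + 1)
    (hz : h z = h x + 1) : (low G h x).card + 2 * b ≤ a + c := by
  have hd : Disjoint (low G h x) ((N G x ∩ N G y) ∪ (N G x ∩ N G z)) := by
    rw [disjoint_left]
    intro v hv hv'
    have h1 := low_disj hL hy hv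
    have h2 := low_disj hL hz hv
    simp only [mem_union, mem_inter, mem_N] at hv'
    tauto
  have hs : low G h x ∪ ((N G x ∩ N G y) ∪ (N G x ∩ N G z)) ⊆ N G x :=
    union_subset (low_sub x) (union_subset inter_subset_left inter_subset_left)
  have := card_le_card hs
  have e := card_union_add_card_inter (N G x ∩ N G y) (N G x ∩ N G z)
  have e2 : N G x ∩ N G y ∩ (N G x ∩ N G z) = N G x ∩ N G y ∩ N G z := by
    ext v; simp only [mem_inter]; tauto
  rw [card_union_of_disjoint hd, hA] at this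
  rw [e2, hB _ _ hxy, hB _ _ hxz, hC _ _ _ hxy hxz hyz] at e
  omega

lemma edge_le (hB : CB G b) (hL : Lip G h) {x y : V} (hxy : G.Adj x y) (hy : h y = h x + 1) :
    b + 2 ≤ (low G h y).card + (low G (-h) x).card := by
  have hs : insert x (insert y (N G x ∩ N G y)) ⊆ low G h y ∪ low G (-h) x := by
    intro v hv
    simp only [mem_insert, mem_inter, mem_N] at hv
    simp only [mem_union, mem_low, Pi.neg_apply]
    rcases hv with rfl | rfl | ⟨h1, h2⟩
    · exact Or.inl ⟨hxy.symm, by omega⟩
    · exact Or.inr ⟨hxy, by omega⟩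
    · have := hL _ _ h1
      have := hL _ _ h2.symm
      by_cases e : h v = h x
      · exact Or.inl ⟨h2, by omega⟩
      · exact Or.inr ⟨h1, by omega⟩
  have := (card_le_card hs).trans (card_union_le _ _)
  rw [card_insert_of_notMem (by simp [hxy.ne]), card_insert_of_notMem (by simp),
    hB _ _ hxy] at this
  omega

/-- A geodesic with four vertices forces `3b + 4 ≤ 2a`. -/
lemma chain3 (hA : CA G a) (hB : CB G b) (hL : Lip G h) {x0 x1 x2 x3 : V} (a1 : G.Adj x0 x1)
    (a2 : G.Adj x1 x2) (a3 : G.Adj x2 x3) (h1 : h x1 = h x0 + 1) (h2 : h x2 = h x1 + 1)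
    (h3 : h x3 = h x2 + 1) : 3 * b + 4 ≤ 2 * a := by
  have e1 := edge_le hB hL a2 h2
  have e2 := low_le1 hA hB hL a3 h3
  have e3 := low_le1 hA hB hL.neg a1.symm (by simp only [Pi.neg_apply]; omega)
  omega

lemma Hp.mid (hH : Hp G) (hL : Lip G h) {x0 x1 x2 : V} (a1 : G.Adj x0 x1) (a2 : G.Adj x1 x2)
    (h1 : h x1 = h x0 + 1) (h2 : h x2 = h x1 + 1) :
    ∃ z, G.Adj x1 z ∧ G.Adj x0 z ∧ G.Adj x2 z ∧ h z = h x1 := by
  obtain ⟨z, z1, z0, z2⟩ := hH x1 x0 x2 a1.symm a2 (by rintro rfl; omega)
    (fun e => by have := hL _ _ e; omega)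
  have := hL _ _ z0
  have := hL _ _ z2.symm
  exact ⟨z, z1, z0, z2, by omega⟩

/-- A geodesic with six vertices forces `5b + 2 ≤ 2a + 2c`. -/
lemma chain5 (hA : CA G a) (hB : CB G b) (hC : CC G c) (hH : Hp G) (hL : Lip G h)
    {x0 x1 x2 x3 x4 x5 : V} (a1 : G.Adj x0 x1) (a2 : G.Adj x1 x2) (a3 : G.Adj x2 x3)
    (a4 : G.Adj x3 x4) (a5 : G.Adj x4 x5) (h1 : h x1 = h x0 + 1) (h2 : h x2 = h x1 + 1)
    (h3 : h x3 = h x2 + 1) (h4 : h x4 = h x3 + 1) (h5 : h x5 = h x4 + 1) :
    5 * b + 2 ≤ 2 * a + 2 * c := by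
  obtain ⟨z, z1, -, z2, hz⟩ := hH.mid hL a1 a2 h1 h2
  obtain ⟨w, w4, w3, -, hw⟩ := hH.mid hL a4 a5 h4 h5
  have e1 := edge_le hB hL a3 h3
  have e2 := low_le2 hA hB hC hL a4 w3 w4 h4 (by omega)
  have e3 := low_le2 hA hB hC hL.neg a2.symm z2 z1 (by simp only [Pi.neg_apply]; omega)
    (by simp only [Pi.neg_apply]; omega)
  omega

/-- The number of lower neighbours grows strictly along every upward edge. -/
lemma low_lt (hB : CB G b) (hC : CC G c) (hH : Hp G) (hbc : 2 * b ≤ 3 * c + 4) (hL : Lip G h)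
    {x y : V} (hxy : G.Adj x y) (hy : h y = h x + 1) :
    (low G h x).card < (low G h y).card := by
  set T := (low G h y).erase x
  have hx : x ∈ low G h y := mem_low.2 ⟨hxy.symm, by omega⟩
  have hT : T.card + 1 = (low G h y).card := card_erase_add_one hx
  set m := max 1 (b - 1 - c)
  have key : (low G h x).card * m ≤ T.card * m := by
    refine card_mul_le_card_mul (fun p z => G.Adj p z ∧ G.Adj x z) (fun p hp => ?_) fun z hz => ?_
    · have hn := low_disj hL hy hp
      obtain ⟨hxp, hp'⟩ := mem_low.1 hp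
      have hne : p ≠ y := by rintro rfl; omega
      obtain ⟨z, zx, zp, zy⟩ := hH x p y hxp hxy hne (fun e => hn e.symm)
      have t := two_sub (S := N G x ∩ N G z) (A := N G x ∩ N G z ∩ N G p)
        (B := N G x ∩ N G z ∩ N G y) (p := p) (y := y) inter_subset_left inter_subset_left
        (by simp [hxp, zp.symm]) (by simp [hxy, zy.symm]) hne (by simp) (by simp [hn])
        (by simp [G.adj_comm p y, hn]) (by simp)
      rw [hB _ _ zx, hC _ _ _ zx hxp zp.symm, hC _ _ _ zx hxy zy.symm] at t
      have hs : insert z (N G x ∩ N G z ∩ N G p ∩ (N G x ∩ N G z ∩ N G y)) ⊆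
          T.bipartiteAbove (fun p z => G.Adj p z ∧ G.Adj x z) p := by
        intro v hv
        have : G.Adj x v ∧ G.Adj p v ∧ G.Adj y v := by
          simp only [mem_insert, mem_inter, mem_N] at hv
          rcases hv with rfl | hv
          · exact ⟨zx, zp, zy⟩
          · tauto
        obtain ⟨v1, v2, v3⟩ := this
        have := hL _ _ v2
        have := hL _ _ v3.symm
        simp only [mem_bipartiteAbove, T, mem_erase, mem_low]
        exact ⟨⟨v1.ne', v3, by omega⟩, v2, v1⟩
      have := card_le_card hs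
      rw [card_insert_of_notMem (by simp)] at this
      omega
    · by_cases zx : G.Adj x z
      · have zy : G.Adj y z := (mem_low.1 (mem_of_mem_erase hz)).1
        set B := (low G h x).bipartiteBelow (fun p z => G.Adj p z ∧ G.Adj x z) z
        have hB' : ∀ v ∈ B, G.Adj x v ∧ G.Adj z v ∧ ¬ G.Adj y v ∧ v ≠ y := fun v hv => by
          obtain ⟨v1, v2, -⟩ := (mem_bipartiteBelow _).1 hv
          have := (mem_low.1 v1).2
          exact ⟨(mem_low.1 v1).1, v2.symm, low_disj hL hy v1, by rintro rfl; omega⟩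
        have hd : Disjoint B (insert y (N G x ∩ N G z ∩ N G y)) := by
          rw [disjoint_left]
          intro v hv hv'
          have := hB' v hv
          simp only [mem_insert, mem_inter, mem_N] at hv'
          tauto
        have hs : B ∪ insert y (N G x ∩ N G z ∩ N G y) ⊆ N G x ∩ N G z :=
          union_subset (fun v hv => by simp [hB' v hv])
            (insert_subset (by simp [hxy, zy.symm]) inter_subset_left)
        have := card_le_card hs
        rw [card_union_of_disjoint hd, card_insert_of_notMem (by simp), hB _ _ zx,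
          hC _ _ _ zx hxy zy.symm] at this
        omega
      · have : (low G h x).bipartiteBelow (fun p z => G.Adj p z ∧ G.Adj x z) z = ∅ := by
          ext v; simp [mem_bipartiteBelow, zx]
        simp [this]
  have := Nat.le_of_mul_le_mul_right key (by omega)
  omega

end Pool.Agent.Lib.MP_972ec5_co.NE
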