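import Mathlib

/-! Six polynomial inequalities (certificates found by linear programming) and their joint
consequence `num`. -/

set_option linter.unusedVariables false

namespace Pool.Agent.Lib.MP_972ec5_co.NE

lemma numA {B k n d u g : ℝ} (hB : 0 < B)
    (h0 : 0 ≤ k)
    (h1 : 0 ≤ -B + 3 * n)
    (h2 : 0 ≤ B - k - n - d)
    (h3 : 0 ≤ B - k - n - u)
    (h4 : 0 ≤ -B + u + g)
    (h5 : 0 ≤ d - g)
    (h6 : 0 ≤ 123 * B - 320 * k + 1500 * n - 1585 * d - 450 * u + 1000 * g) :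
    0 < (2 * B - k - d - u) * (g * g + n * g - B * d - k * (n - d + g)) + d * ((B - g) * (B - g)) := by
  linarith [pow_pos hB 3,
    (mul_nonneg h1 (mul_self_nonneg (-201 * B - 40 * k + 400 * n + 100 * d + 320 * u - 360 * g))),
    (mul_nonneg (mul_nonneg h4 h4) h4),
    (mul_nonneg (mul_nonneg h3 h4) h6),
    (mul_nonneg (mul_nonneg h0 h1) h2),
    (mul_nonneg (mul_nonneg h0 h3) h3),
    (mul_nonneg (mul_nonneg h3 h5) h6),
    (mul_nonneg (mul_nonneg h3 h4) h5),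
    (mul_nonneg (mul_nonneg h2 h4) h6),
    (mul_nonneg (mul_nonneg h5 h5) h6),
    (mul_nonneg (mul_nonneg h2 h3) h6),
    (mul_nonneg (mul_nonneg h4 h4) h5),
    (mul_nonneg (mul_self_nonneg (-93 * B - 60 * k + 280 * n + 20 * d + 340 * u - 400 * g)) hB.le),
    (mul_nonneg (mul_nonneg h0 h0) h1),
    (mul_nonneg h2 (mul_self_nonneg (-15 * B + 20 * n + 12 * d + 8 * u - 8 * g))),
    (mul_nonneg (mul_nonneg h0 h1) h1),
    (mul_nonneg (mul_nonneg h0 h5) h6),
    (mul_nonneg (mul_nonneg h0 h2) h5),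
    (mul_nonneg (mul_nonneg h1 h4) h6),
    (mul_nonneg (mul_nonneg h0 h3) h4),
    (mul_nonneg (mul_nonneg h3 h4) h4),
    (mul_nonneg (mul_nonneg h4 h4) h6),
    (mul_nonneg (mul_nonneg h2 h2) h6),
    (mul_nonneg (mul_nonneg h4 h5) h6),
    (mul_nonneg h5 (mul_self_nonneg (-11 * B - 20 * k + 52 * n + 4 * d + 60 * u - 80 * g))),
    (mul_nonneg (mul_nonneg h5 h6) h6),
    (mul_nonneg (mul_nonneg h1 h4) h5),
    (mul_nonneg h5 (mul_self_nonneg (-271 * B + 80 * k + 100 * n + 340 * d - 320 * u + 400 * g))),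
    (mul_nonneg (mul_nonneg h0 h1) h6),
    (mul_nonneg (mul_nonneg h4 hB.le) hB.le),
    (mul_nonneg (mul_nonneg h1 h6) h6),
    (mul_nonneg (mul_nonneg h3 h3) h6),
    (mul_nonneg (mul_nonneg h0 h2) h6),
    (mul_nonneg (mul_nonneg h0 h4) h6),
    (mul_nonneg (mul_nonneg h2 h5) h6),
    (mul_nonneg (mul_nonneg h1 h1) h1),
    (mul_nonneg (mul_nonneg h0 h4) h4),
    (mul_nonneg (mul_nonneg h0 h3) h6),
    (mul_nonneg (mul_nonneg h1 h2) h6),
    (mul_nonneg (mul_nonneg h1 h2) h4),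
    (mul_nonneg (mul_nonneg h2 h2) h4),
    (mul_nonneg h3 (mul_self_nonneg (-9 * B + 20 * n + 20 * u - 20 * g))),
    (mul_nonneg (mul_nonneg h1 h3) h6),
    (mul_nonneg (mul_nonneg h0 h0) h4),
    (mul_nonneg (mul_nonneg h2 h3) h4),
    (mul_nonneg h1 (mul_self_nonneg (43 * B + 20 * k + 140 * n - 240 * d + 400 * u - 380 * g))),
    (mul_nonneg (mul_nonneg h0 h2) h2),
    (mul_nonneg (mul_nonneg h3 h3) h4),
    (mul_nonneg (mul_nonneg h0 h0) h2),
    (mul_nonneg (mul_nonneg h1 h2) h2),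
    (mul_nonneg (mul_nonneg h0 h0) h3),
    (mul_nonneg (mul_nonneg h0 h0) h6),
    (mul_nonneg (mul_nonneg h0 h1) h4),
    (mul_nonneg (mul_nonneg h0 h1) h5),
    (mul_nonneg h2 (mul_self_nonneg (9 * B + 6 * k + 8 * n - 34 * d + 40 * u - 34 * g))),
    (mul_nonneg (mul_nonneg h2 h4) h4)]

lemma numB {B k n d u g : ℝ} (hB : 0 < B)
    (h0 : 0 ≤ k)
    (h1 : 0 ≤ -B + 3 * n)
    (h2 : 0 ≤ B - k - n - d)
    (h3 : 0 ≤ B - k - n - u)
    (h4 : 0 ≤ -1123 * B + 320 * k - 1500 * n + 1585 * d + 1450 * u)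
    (h5 : 0 ≤ -B + d + u)
    (h6 : 0 ≤ u - g)
    (h7 : 0 ≤ -5575 * B - 3200 * k + 8260 * n + 4230 * d - 7766 * u + 10000 * g) :
    0 < (2 * B - k - d - u) * (g * g + n * g - B * u - k * n) + u * ((B - g) * (B - g)) := by
  linarith [pow_pos hB 3,
    (mul_nonneg h6 (mul_self_nonneg (-107 * B + 30 * k + 10 * n + 200 * d + 10 * u - 40 * g))),
    (mul_nonneg (mul_nonneg h3 h6) h7),
    (mul_nonneg (mul_nonneg h0 h2) h6),
    (mul_nonneg (mul_nonneg h0 h2) h2),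
    (mul_nonneg (mul_nonneg h0 h7) h7),
    (mul_nonneg (mul_nonneg h2 h7) h7),
    (mul_nonneg (mul_nonneg h1 h3) h4),
    (mul_nonneg (mul_nonneg h0 h5) h6),
    (mul_nonneg (mul_nonneg h0 h1) h2),
    (mul_nonneg (mul_nonneg h3 h4) h7),
    (mul_nonneg (mul_nonneg h6 h6) h7),
    (mul_nonneg (mul_nonneg h0 h2) h3),
    (mul_nonneg (mul_nonneg h0 h0) h3),
    (mul_nonneg (mul_nonneg h1 h4) h4),
    (mul_nonneg (mul_nonneg h0 h7) hB.le),
    (mul_nonneg (mul_nonneg h3 h3) h7),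
    (mul_nonneg (mul_nonneg h1 h2) h7),
    (mul_nonneg (mul_nonneg h1 h4) h7),
    (mul_nonneg (mul_nonneg h1 h1) h4),
    (mul_nonneg h5 (mul_self_nonneg (-19 * B + 4 * k + 2 * n + 40 * d - 10 * g))),
    (mul_nonneg (mul_nonneg h3 h3) h3),
    (mul_nonneg (mul_self_nonneg (-347 * B + 80 * k + 100 * n + 400 * d + 140 * u - 20 * g)) hB.le),
    (mul_nonneg (mul_nonneg h0 h1) h4),
    (mul_nonneg h1 (mul_self_nonneg (-137 * B - 20 * k + 360 * n + 300 * d + 60 * u - 400 * g))),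
    (mul_nonneg (mul_nonneg h0 h3) h7),
    (mul_nonneg h3 (mul_self_nonneg (-33 * B + 6 * k + 2 * n + 40 * d + 14 * u + 2 * g))),
    (mul_nonneg h2 (mul_self_nonneg (-111 * B + 30 * k + 30 * n + 200 * d + 10 * u - 50 * g))),
    (mul_nonneg (mul_nonneg h0 h4) hB.le),
    (mul_nonneg (mul_self_nonneg (-201 * B + 30 * k + 170 * n + 200 * d + 110 * u - 90 * g)) hB.le),
    (mul_nonneg (mul_nonneg h0 h3) h3),
    (mul_nonneg (mul_nonneg h2 h2) h7),
    (mul_nonneg (mul_nonneg h1 h1) h2),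
    (mul_nonneg h1 (mul_self_nonneg (-61 * B + 5 * k + 100 * n + 55 * d + 40 * u - 65 * g))),
    (mul_nonneg (mul_nonneg h1 h6) h7),
    (mul_nonneg (mul_nonneg h4 h7) h7),
    (mul_nonneg (mul_nonneg h0 h1) h7),
    (mul_nonneg h2 (mul_self_nonneg (-13 * B + 40 * k - 20 * n + 400 * d - 180 * u - 220 * g))),
    (mul_nonneg (mul_nonneg h2 h3) h7),
    (mul_nonneg (mul_nonneg h4 h4) h7),
    (mul_nonneg (mul_nonneg h1 h7) h7),
    (mul_nonneg (mul_nonneg h0 h0) h0),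
    (mul_nonneg (mul_nonneg h1 h2) h3),
    (mul_nonneg (mul_nonneg h2 h4) h7),
    (mul_nonneg (mul_nonneg h0 h5) h5),
    (mul_nonneg h4 (mul_self_nonneg (-37 * B + 20 * k + 20 * n + 400 * d - 120 * u - 260 * g))),
    (mul_nonneg (mul_nonneg h0 h0) h1),
    (mul_nonneg (mul_nonneg h1 h2) h2),
    (mul_nonneg h3 (mul_self_nonneg (-271 * B + 60 * k + 80 * n + 400 * d + 80 * u - 80 * g))),
    (mul_nonneg (mul_nonneg h1 h3) h3),
    (mul_nonneg (mul_nonneg h0 h0) h2),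
    (mul_nonneg (mul_nonneg h0 h3) h4),
    (mul_nonneg (mul_nonneg h2 h7) hB.le),
    (mul_nonneg (mul_nonneg h0 h4) h7),
    (mul_nonneg (mul_nonneg h3 h7) h7),
    (mul_nonneg (mul_nonneg h0 h0) h5)]

lemma numC1 {B k n d u g : ℝ} (hB : 0 < B)
    (h0 : 0 ≤ k)
    (h1 : 0 ≤ -B + 3 * n)
    (h2 : 0 ≤ B - k - n - d)
    (h3 : 0 ≤ B - k - n - u)
    (h4 : 0 ≤ -1123 * B + 320 * k - 1500 * n + 1585 * d + 1450 * u)
    (h5 : 0 ≤ -B + d + u)
    (h6 : 0 ≤ 73 * B - 200 * n)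
    (h7 : 0 ≤ g)
    (h8 : 0 ≤ 249 * B + 65 * k - 900 * n + 285 * d + 285 * u - 500 * g) :
    0 < (2 * B - k - d - u) * (g * g - n * g - B * n + (B - 2 * n) * (B - k - d - u)) + (d + u) * ((B - g) * (B - g)) := by
  linarith [pow_pos hB 3,
    (mul_nonneg (mul_nonneg h0 h1) h1),
    (mul_nonneg h4 (mul_self_nonneg (-153 * B + 140 * k - 100 * n - 40 * d - 40 * u + 400 * g))),
    (mul_nonneg (mul_nonneg h7 h8) h8),
    (mul_nonneg (mul_nonneg h3 h5) h6),
    (mul_nonneg h7 (mul_self_nonneg (-68 * B + 70 * k + 90 * n + 95 * d + 55 * u - 100 * g))),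
    (mul_nonneg (mul_nonneg h0 h3) h4),
    (mul_nonneg (mul_nonneg h1 h6) h6),
    (mul_nonneg (mul_self_nonneg (-243 * B + 280 * k + 320 * n + 180 * d + 400 * u - 400 * g)) hB.le),
    (mul_nonneg (mul_nonneg h0 h2) h3),
    (mul_nonneg (mul_nonneg h0 h0) h2),
    (mul_nonneg (mul_nonneg h4 h4) h6),
    (mul_nonneg (mul_nonneg h2 h3) h8),
    (mul_nonneg (mul_nonneg h8 h8) h8),
    (mul_nonneg (mul_nonneg h0 h1) h2),
    (mul_nonneg (mul_nonneg h1 h1) h1),
    (mul_nonneg (mul_nonneg h0 h8) h8),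
    (mul_nonneg h8 (mul_self_nonneg (67 * B + 400 * k + 80 * n - 240 * d + 60 * u - 40 * g))),
    (mul_nonneg (mul_nonneg h1 h2) h8),
    (mul_nonneg (mul_nonneg h1 h7) h8),
    (mul_nonneg (mul_nonneg h3 h4) h6),
    (mul_nonneg (mul_nonneg h3 h8) hB.le),
    (mul_nonneg (mul_nonneg h1 h2) h3),
    (mul_nonneg (mul_nonneg h0 h7) h8),
    (mul_nonneg (mul_nonneg h1 h2) h4),
    (mul_nonneg (mul_nonneg h1 h1) h8),
    (mul_nonneg (mul_nonneg h0 h6) h6),
    (mul_nonneg (mul_nonneg h2 h8) h8),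
    (mul_nonneg (mul_nonneg h1 h8) h8),
    (mul_nonneg (mul_nonneg h2 h2) h3),
    (mul_nonneg (mul_nonneg h2 h4) h4),
    (mul_nonneg (mul_nonneg h0 h1) h4),
    (mul_nonneg (mul_nonneg h2 h8) hB.le),
    (mul_nonneg h0 (mul_self_nonneg (43 * B - 120 * k - 260 * n - 160 * d - 100 * u + 400 * g))),
    (mul_nonneg (mul_nonneg h3 h3) h6),
    (mul_nonneg (mul_nonneg h2 h3) h6),
    (mul_nonneg (mul_nonneg h2 h3) h3),
    (mul_nonneg h4 (mul_self_nonneg (-34 * B - 15 * k + 75 * n + 65 * d + 40 * u - 100 * g))),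
    (mul_nonneg (mul_nonneg h1 h1) h4),
    (mul_nonneg h3 (mul_self_nonneg (-59 * B + 8 * k - 12 * n + 4 * d + 80 * u + 40 * g))),
    (mul_nonneg (mul_nonneg h2 h2) h8),
    (mul_nonneg (mul_nonneg h2 h2) h6),
    (mul_nonneg (mul_nonneg h3 h8) h8),
    (mul_nonneg (mul_nonneg h0 h2) h8),
    (mul_nonneg (mul_nonneg h1 h3) h8),
    (mul_nonneg (mul_nonneg h3 h6) h6),
    (mul_nonneg (mul_nonneg h0 h0) h4),
    (mul_nonneg (mul_nonneg h0 h2) h4),
    (mul_nonneg (mul_nonneg h2 h6) h6),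
    (mul_nonneg (mul_nonneg h6 h7) h8),
    (mul_nonneg (mul_nonneg h3 h4) h4),
    (mul_nonneg (mul_nonneg h0 h3) h8),
    (mul_nonneg (mul_nonneg h0 h4) h5),
    (mul_nonneg (mul_nonneg h3 h3) h8),
    (mul_nonneg (mul_nonneg h0 h3) h3),
    (mul_nonneg (mul_nonneg h0 h1) h8)]

lemma numC2 {B k n d u g : ℝ} (hB : 0 < B)
    (h0 : 0 ≤ k)
    (h1 : 0 ≤ -B + 3 * n)
    (h2 : 0 ≤ B - k - n - d)
    (h3 : 0 ≤ B - k - n - u)
    (h4 : 0 ≤ -1123 * B + 320 * k - 1500 * n + 1585 * d + 1450 * u)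
    (h6 : 0 ≤ -73 * B + 200 * n)
    (h7 : 0 ≤ g)
    (h8 : 0 ≤ 654 * B + 411 * k - 2868 * n + 1206 * d + 1206 * u - 2000 * g) :
    0 < (2 * B - k - d - u) * (g * g - n * g - B * n + (B - 2 * n) * (B - k - d - u)) + (d + u) * ((B - g) * (B - g)) := by
  linarith [pow_pos hB 3,
    (mul_nonneg h7 (mul_self_nonneg (-13 * B + 20 * n - 16 * d + 40 * u - 16 * g))),
    (mul_nonneg (mul_nonneg h4 h6) h8),
    (mul_nonneg (mul_nonneg h0 h4) h8),
    (mul_nonneg (mul_nonneg h3 h4) h8),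
    (mul_nonneg (mul_nonneg h0 h1) h4),
    (mul_nonneg (mul_nonneg h0 h4) h4),
    (mul_nonneg (mul_nonneg h1 h2) h8),
    (mul_nonneg (mul_nonneg h2 h4) h8),
    (mul_nonneg (mul_nonneg h1 h3) h4),
    (mul_nonneg (mul_nonneg h4 h8) h8),
    (mul_nonneg (mul_nonneg h0 h0) h2),
    (mul_nonneg h3 (mul_self_nonneg (-57 * B - 20 * k + 100 * n - 80 * d + 200 * u - 90 * g))),
    (mul_nonneg (mul_nonneg h3 h3) h8),
    (mul_nonneg (mul_nonneg h0 h0) h6),
    (mul_nonneg (mul_nonneg h2 h2) h3),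
    (mul_nonneg (mul_nonneg h0 h2) h8),
    (mul_nonneg (mul_nonneg h2 h8) h8),
    (mul_nonneg (mul_nonneg h0 h3) h3),
    (mul_nonneg (mul_nonneg h6 h6) h7),
    (mul_nonneg (mul_nonneg h0 h2) h2),
    (mul_nonneg (mul_nonneg h2 h4) h7),
    (mul_nonneg (mul_nonneg h2 h4) h4),
    (mul_nonneg (mul_nonneg h6 h6) h8),
    (mul_nonneg (mul_nonneg h0 h8) h8),
    (mul_nonneg (mul_nonneg h3 h8) h8),
    (mul_nonneg (mul_nonneg h0 h2) h6),
    (mul_nonneg h2 (mul_self_nonneg (-69 * B + 4 * k + 44 * n + 80 * d + 16 * u - 4 * g))),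
    (mul_nonneg h3 (mul_self_nonneg (-243 * B + 60 * k + 400 * n + 80 * d + 280 * u - 260 * g))),
    (mul_nonneg (mul_nonneg h3 h4) h7),
    (mul_nonneg h3 (mul_self_nonneg (-23 * B + 4 * k + 40 * n + 20 * d + 16 * u - 28 * g))),
    (mul_nonneg (mul_nonneg h4 h4) h6),
    (mul_nonneg (mul_nonneg h4 h6) h6),
    (mul_nonneg (mul_nonneg h0 h3) h8),
    (mul_nonneg (mul_nonneg h0 h0) h4),
    (mul_nonneg (mul_nonneg h0 h4) hB.le),
    (mul_nonneg h2 (mul_self_nonneg (-241 * B + 60 * k + 400 * n + 160 * d + 200 * u - 260 * g))),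
    (mul_nonneg (mul_nonneg h0 h2) h4),
    (mul_nonneg (mul_nonneg h3 h3) h4),
    (mul_nonneg (mul_nonneg h2 h2) h8),
    (mul_nonneg (mul_nonneg h0 h6) h6),
    (mul_nonneg (mul_nonneg h2 h2) h4),
    (mul_nonneg (mul_nonneg h4 h4) h4),
    (mul_nonneg (mul_nonneg h2 h3) h3),
    (mul_nonneg (mul_nonneg h6 h6) h6),
    (mul_nonneg (mul_nonneg h2 h3) h8),
    (mul_nonneg (mul_nonneg h1 h3) h8),
    (mul_nonneg (mul_nonneg h1 h8) h8),
    (mul_nonneg (mul_nonneg h0 h0) h8),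
    (mul_nonneg (mul_nonneg h0 h1) h8),
    (mul_nonneg (mul_nonneg h0 h0) h0),
    (mul_nonneg (mul_nonneg h8 h8) h8),
    (mul_nonneg (mul_nonneg h4 h4) h8),
    (mul_nonneg (mul_nonneg h2 h6) h6),
    (mul_nonneg (mul_nonneg h0 h6) h7),
    (mul_nonneg (mul_nonneg h2 h4) h6)]

lemma numD1 {B k n d u g : ℝ} (hB : 0 < B)
    (h0 : 0 ≤ k)
    (h1 : 0 ≤ -B + 3 * n)
    (h2 : 0 ≤ B - k - n - d)
    (h3 : 0 ≤ B - k - n - u)
    (h4 : 0 ≤ -1123 * B + 320 * k - 1500 * n + 1585 * d + 1450 * u)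
    (h5 : 0 ≤ -B + d + u)
    (h6 : 0 ≤ 73 * B - 200 * n) :
    0 < (d + u) * ((249/500) * B + (13/100) * k + (-9/5) * n + (57/100) * d + (57/100) * u) - d * ((-123/1000) * B + (8/25) * k + (-3/2) * n + (317/200) * d + (9/20) * u) - u * ((223/400) * B + (8/25) * k + (-413/500) * n + (-423/1000) * d + (3883/5000) * u) := by
  linarith [pow_pos hB 2,
    (mul_nonneg h4 h6),
    (mul_nonneg h0 h2),
    (mul_nonneg h1 h2),
    (mul_nonneg h0 h6),
    (mul_nonneg h1 h4),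
    (mul_nonneg h1 h3),
    (mul_nonneg h2 h4),
    (mul_nonneg h4 h4),
    (mul_nonneg h2 h3),
    (mul_nonneg h3 h4),
    (mul_nonneg h3 h6),
    (mul_nonneg h1 h6),
    (mul_nonneg h0 h3),
    (mul_nonneg h5 h6)]

lemma numD2 {B k n d u g : ℝ} (hB : 0 < B)
    (h0 : 0 ≤ k)
    (h2 : 0 ≤ B - k - n - d)
    (h3 : 0 ≤ B - k - n - u)
    (h4 : 0 ≤ -1123 * B + 320 * k - 1500 * n + 1585 * d + 1450 * u)
    (h5 : 0 ≤ -B + d + u)
    (h6 : 0 ≤ -73 * B + 200 * n) :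
    0 < (d + u) * ((327/1000) * B + (411/2000) * k + (-717/500) * n + (603/1000) * d + (603/1000) * u) - d * ((-123/1000) * B + (8/25) * k + (-3/2) * n + (317/200) * d + (9/20) * u) - u * ((223/400) * B + (8/25) * k + (-413/500) * n + (-423/1000) * d + (3883/5000) * u) := by
  linarith [pow_pos hB 2,
    (mul_nonneg h3 h6),
    (mul_nonneg h0 h3),
    (mul_nonneg h2 h3),
    (mul_nonneg h0 h0),
    (mul_nonneg h2 h6),
    (mul_nonneg h2 h4),
    (mul_nonneg h0 h2),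
    (mul_nonneg h3 h4),
    (mul_nonneg h0 h4),
    (mul_nonneg h6 h6),
    (mul_nonneg h0 h6),
    (mul_nonneg h3 h5),
    (mul_nonneg h4 h4),
    (mul_nonneg h4 h6)]

/-- The three Cauchy-Schwarz inequalities of the link are jointly infeasible. -/
lemma num {B k n d u g g' w : ℝ} (hB : 0 < B) (hk : 0 ≤ k) (hn : B ≤ 3 * n) (hd : d ≤ B - k - n)
    (hu : u ≤ B - k - n) (hg : B ≤ u + g) (hgd : g ≤ d) (hgu : g' ≤ u) (hw0 : 0 ≤ w)
    (hw : (d + u) * w = d * g + u * g') (hd0 : 0 ≤ d) (hu0 : 0 ≤ u)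
    (hA : (2 * B - k - d - u) * (g * g + n * g - B * d - k * (n - d + g))
      + d * ((B - g) * (B - g)) ≤ 0)
    (hB' : (2 * B - k - d - u) * (g' * g' + n * g' - B * u - k * n)
      + u * ((B - g') * (B - g')) ≤ 0)
    (hC : (2 * B - k - d - u) * (w * w - n * w - B * n + (B - 2 * n) * (B - k - d - u))
      + (d + u) * ((B - w) * (B - w)) ≤ 0) : False := by
  have e1 : 1000 * g ≤ -123 * B + 320 * k - 1500 * n + 1585 * d + 450 * u := by
    by_contra h
    have := numA (B := B) (k := k) (n := n) (d := d) (u := u) (g := g) hB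
        (by linarith) (by linarith) (by linarith) (by linarith) (by linarith) (by linarith) (by linarith)
    linarith
  have e2 : 10000 * g' ≤ 5575 * B + 3200 * k - 8260 * n - 4230 * d + 7766 * u := by
    by_contra h
    have := numB (B := B) (k := k) (n := n) (d := d) (u := u) (g := g') hB
        (by linarith) (by linarith) (by linarith) (by linarith) (by linarith) (by linarith) (by linarith) (by linarith)
    linarith
  have f1 := mul_le_mul_of_nonneg_left e1 hd0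
  have f2 := mul_le_mul_of_nonneg_left e2 hu0
  rcases le_total (200 * n) (73 * B) with hc | hc
  · have e3 : 498 * B + 130 * k - 1800 * n + 570 * d + 570 * u ≤ 1000 * w := by
      by_contra h
      have := numC1 (B := B) (k := k) (n := n) (d := d) (u := u) (g := w) hB
        (by linarith) (by linarith) (by linarith) (by linarith) (by linarith) (by linarith) (by linarith) (by linarith) (by linarith)
      linarith
    have f3 := mul_le_mul_of_nonneg_left e3 (add_nonneg hd0 hu0)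
    have := numD1 (B := B) (k := k) (n := n) (d := d) (u := u) (g := w) hB
        (by linarith) (by linarith) (by linarith) (by linarith) (by linarith) (by linarith) (by linarith)
    linarith
  · have e3 : 3270 * B + 2055 * k - 14340 * n + 6030 * d + 6030 * u ≤ 10000 * w := by
      by_contra h
      have := numC2 (B := B) (k := k) (n := n) (d := d) (u := u) (g := w) hB
        (by linarith) (by linarith) (by linarith) (by linarith) (by linarith) (by linarith) (by linarith) (by linarith)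
      linarith
    have f3 := mul_le_mul_of_nonneg_left e3 (add_nonneg hd0 hu0)
    have := numD2 (B := B) (k := k) (n := n) (d := d) (u := u) (g := w) hB
        (by linarith) (by linarith) (by linarith) (by linarith) (by linarith) (by linarith)
    linarith

end Pool.Agent.Lib.MP_972ec5_co.NE
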