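import Pool.Agent.Lib.MP_972ec5_co.NE.Conn
import Pool.Agent.Lib.MP_972ec5_co.NE.Num

/-! If `a ≤ 2b + 1`, a connected `(a,b,c)`-regular graph has diameter at most `a`. -/

namespace Pool.Agent.Lib.MP_972ec5_co.NE

open Finset Classical

variable {V : Type} [Fintype V] {G : SimpleGraph V} {a b c : ℕ} {h : V → ℤ}

/-- Number of neighbours of `z` in `F`. -/
noncomputable def dg (G : SimpleGraph V) (F : Finset V) (z : V) : ℝ :=
  ∑ v ∈ F, if G.Adj v z then 1 else 0

/-- Codegree in the link of `x`. -/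
noncomputable def cod (G : SimpleGraph V) (x v w : V) : ℝ := (N G x ∩ N G v ∩ N G w).card

lemma dg_eq (F : Finset V) (z : V) : dg G F z = (F ∩ N G z).card := by
  rw [dg, sum_boole]
  congr 2
  ext v
  simp [G.adj_comm]

lemma cod_eq (x v w : V) : cod G x v w =
    ∑ z ∈ N G x, (if G.Adj v z then 1 else 0) * (if G.Adj w z then 1 else 0) := by
  simp only [ite_mul, one_mul, zero_mul, ← ite_and]
  rw [sum_boole, cod]
  congr 2
  ext z
  simp

lemma sum_cod (x : V) (F : Finset V) :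
    ∑ v ∈ F, ∑ w ∈ F, cod G x v w = ∑ z ∈ N G x, dg G F z ^ 2 := by
  simp only [cod_eq, dg, sq, sum_mul_sum]
  rw [sum_comm (s := N G x)]
  exact sum_congr rfl fun v _ => sum_comm

lemma dg_link (hB : CB G b) {x v : V} (hv : v ∈ N G x) : dg G (N G x) v = b := by
  rw [dg_eq, hB _ _ (mem_N.1 hv)]

omit [Fintype V] in
lemma dg_comm (F E : Finset V) : ∑ z ∈ E, dg G F z = ∑ v ∈ F, dg G E v := by
  simp only [dg]
  rw [sum_comm]
  simp only [G.adj_comm]

lemma row (hB : CB G b) {x v : V} (hv : v ∈ N G x) : ∑ w ∈ N G x, cod G x v w = b * b := by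
  simp only [cod_eq]
  rw [sum_comm]
  simp only [← mul_sum]
  rw [sum_congr rfl (g := fun z => (if G.Adj z v then 1 else 0) * (b : ℝ)) fun z hz => by
    rw [← dg_link hB hz, dg, G.adj_comm], ← sum_mul, ← dg, dg_link hB hv]

lemma cod_le (hB : CB G b) {x v : V} (hv : v ∈ N G x) (w : V) : cod G x v w ≤ b := by
  rw [cod, ← hB _ _ (mem_N.1 hv)]
  exact_mod_cast card_le_card inter_subset_left

lemma cod_ge (hB : CB G b) (hC : CC G c) (hH : Hp G) {x p y : V} (hp : G.Adj x p)
    (hy : G.Adj x y) (hne : p ≠ y) (hn : ¬ G.Adj p y) : 2 * c + 3 - b ≤ cod G x p y := by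
  obtain ⟨z, zx, zp, zy⟩ := hH x p y hp hy hne hn
  have t := two_sub (S := N G x ∩ N G z) (A := N G x ∩ N G z ∩ N G p)
    (B := N G x ∩ N G z ∩ N G y) (p := p) (y := y) inter_subset_left inter_subset_left
    (by simp [hp, zp.symm]) (by simp [hy, zy.symm]) hne (by simp) (by simp [G.adj_comm y p, hn])
    (by simp [hn]) (by simp)
  rw [hB _ _ zx, hC _ _ _ zx hp zp.symm, hC _ _ _ zx hy zy.symm] at t
  have hs : insert z (N G x ∩ N G z ∩ N G p ∩ (N G x ∩ N G z ∩ N G y)) ⊆
      N G x ∩ N G p ∩ N G y := by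
    intro v hv
    simp only [mem_insert, mem_inter, mem_N] at hv ⊢
    rcases hv with rfl | hv
    · exact ⟨⟨zx, zp⟩, zy⟩
    · tauto
  have := card_le_card hs
  rw [card_insert_of_notMem (by simp)] at this
  have e : 2 * c + 3 ≤ (N G x ∩ N G p ∩ N G y).card + b := by omega
  have e' : (2 * c + 3 : ℝ) ≤ (N G x ∩ N G p ∩ N G y).card + b := by exact_mod_cast e
  rw [cod]
  linarith

/-- Cauchy-Schwarz on the two parts `F` and `E`; `g` is the average inner degree of `F`. -/
lemma lower {x : V} {F E : Finset V} (hF : F ⊆ N G x) (hE : E ⊆ N G x)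
    (hd : Disjoint F E) (hcl : ∀ v ∈ F, dg G F v + dg G E v = b) {g : ℝ} (h0 : 0 < F.card)
    (hg : ∑ v ∈ F, dg G F v = F.card * g) {r : ℝ}
    (hr : ∑ v ∈ F, ∑ w ∈ F, cod G x v w ≤ F.card * r) :
    E.card * (g * g - r) + F.card * ((b - g) * (b - g)) ≤ 0 := by
  have c1 := sq_sum_le_card_mul_sum_sq (s := F) (f := dg G F)
  have c2 := sq_sum_le_card_mul_sum_sq (s := E) (f := dg G F)
  have e2 : ∑ z ∈ E, dg G F z = F.card * (b - g) := by
    have : ∑ v ∈ F, (dg G F v + dg G E v) = F.card * b := by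
      rw [sum_congr rfl hcl, sum_const, nsmul_eq_mul]
    rw [sum_add_distrib] at this
    rw [dg_comm]
    linarith
  have e3 : ∑ z ∈ F, dg G F z ^ 2 + ∑ z ∈ E, dg G F z ^ 2 ≤ F.card * r := by
    rw [← sum_union hd]
    refine le_trans ?_ hr
    rw [sum_cod]
    exact sum_le_sum_of_subset_of_nonneg (union_subset hF hE) fun _ _ _ => sq_nonneg _
  rw [hg] at c1
  rw [e2] at c2
  have f0 : (0 : ℝ) < F.card := by exact_mod_cast h0
  have e0 : (0 : ℝ) ≤ E.card := by positivity
  have c3 : F.card * (g * g) ≤ ∑ z ∈ F, dg G F z ^ 2 :=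
    le_of_mul_le_mul_left (by nlinarith) f0
  have c4 := mul_le_mul_of_nonneg_left (show F.card * (g * g) + ∑ z ∈ E, dg G F z ^ 2 ≤ F.card * r
    by linarith) e0
  exact le_of_mul_le_mul_left (by nlinarith) f0

lemma upperA (hB : CB G b) (hC : CC G c) {x : V} {F : Finset V} (hF : F ⊆ N G x) {g : ℝ}
    (hg : ∑ v ∈ F, dg G F v = F.card * g) :
    ∑ v ∈ F, ∑ w ∈ F, cod G x v w ≤ F.card * (b * F.card - (b - c) * g) := by
  have : ∀ v ∈ F, ∑ w ∈ F, cod G x v w ≤ b * F.card - (b - c) * dg G F v := fun v hv => by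
    rw [dg, mul_sum, mul_comm (b : ℝ), ← nsmul_eq_mul, ← sum_const, ← sum_sub_distrib]
    refine sum_le_sum fun w hw => ?_
    split_ifs with e
    · rw [cod, hC _ _ _ (mem_N.1 (hF hv)) (mem_N.1 (hF hw)) e.symm]
      linarith
    · linarith [cod_le hB (hF hv) w]
  refine (sum_le_sum this).trans ?_
  simp only [sum_sub_distrib, ← mul_sum, hg, sum_const, nsmul_eq_mul]
  linarith

lemma upperC (hB : CB G b) (hC : CC G c) (hH : Hp G) {x : V} {F : Finset V} (hF : F ⊆ N G x)
    {g : ℝ} (hg : ∑ v ∈ F, dg G F v = F.card * g) :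
    ∑ v ∈ F, ∑ w ∈ F, cod G x v w ≤ F.card *
      (b * b - (2 * c + 3 - b) * (N G x \ F).card - (b - c - 3) * (b - g)) := by
  have : ∀ v ∈ F, ∑ w ∈ F, cod G x v w ≤
      b * b - (2 * c + 3 - b) * (N G x \ F).card - (b - c - 3) * (b - dg G F v) := fun v hv => by
    have e1 := sum_sdiff (f := cod G x v) hF
    have e2 := sum_sdiff (f := fun w => if G.Adj w v then (1 : ℝ) else 0) hF
    have e3 : ∑ w ∈ N G x \ F, ((2 * c + 3 - b) + (b - c - 3) * if G.Adj w v then (1 : ℝ) else 0)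
        ≤ ∑ w ∈ N G x \ F, cod G x v w := sum_le_sum fun w hw => by
      obtain ⟨w1, w2⟩ := mem_sdiff.1 hw
      split_ifs with e
      · rw [cod, hC _ _ _ (mem_N.1 (hF hv)) (mem_N.1 w1) e.symm]
        linarith
      · linarith [cod_ge hB hC hH (mem_N.1 (hF hv)) (mem_N.1 w1) (by rintro rfl; exact w2 hv)
          fun e' => e e'.symm]
    rw [sum_add_distrib, ← mul_sum, sum_const, nsmul_eq_mul] at e3
    rw [row hB (hF hv)] at e1
    rw [← dg, ← dg, ← dg, dg_link hB (hF hv)] at e2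
    rw [← dg, show dg G (N G x \ F) v = b - dg G F v by linarith] at e3
    linarith
  refine (sum_le_sum this).trans ?_
  simp only [sum_sub_distrib, ← mul_sum, hg, sum_const, nsmul_eq_mul]
  linarith

lemma avg {F : Finset V} (h0 : 0 < F.card) :
    ∃ g : ℝ, ∑ v ∈ F, dg G F v = F.card * g ∧ 0 ≤ g ∧ g + 1 ≤ F.card ∧
      ∀ s : ℝ, (∀ v ∈ F, s ≤ dg G F v) → s ≤ g := by
  have f0 : (0 : ℝ) < F.card := by exact_mod_cast h0
  have e : ∑ v ∈ F, dg G F v = F.card * ((∑ v ∈ F, dg G F v) / F.card) := by field_simp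
  have key : ∀ s : ℝ, (∀ v ∈ F, s ≤ dg G F v) → s ≤ (∑ v ∈ F, dg G F v) / F.card := fun s hs => by
    have := card_nsmul_le_sum F _ s hs
    rw [nsmul_eq_mul] at this
    rw [le_div_iff₀ f0]
    linarith
  refine ⟨_, e, key 0 fun v _ => (dg_eq (G := G) F v).symm ▸ Nat.cast_nonneg _, ?_, key⟩
  have := sum_le_card_nsmul F (dg G F) (F.card - 1) fun v hv => by
    have h1 : F ∩ N G v ⊆ F.erase v := fun w hw =>
      mem_erase.2 ⟨(mem_N.1 (mem_inter.1 hw).2).ne', (mem_inter.1 hw).1⟩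
    have h2 := card_le_card h1
    have h3 := card_erase_add_one hv
    have : (F ∩ N G v).card + 1 ≤ F.card := by omega
    have : ((F ∩ N G v).card + 1 : ℝ) ≤ F.card := by exact_mod_cast this
    rw [dg_eq]
    linarith
  rw [nsmul_eq_mul] at this
  rw [← le_sub_iff_add_le, div_le_iff₀ f0]
  linarith

/-- Two non-adjacent parts `D`, `U` of a vertex link: some vertex of `D` has at most
`b - |U|` neighbours in `D`. -/
lemma link_false (hA : CA G a) (hB : CB G b) (hC : CC G c) (hab : a ≤ 2 * b + 1)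
    (hbc : 3 * c + 4 ≤ 2 * b) {x : V} {D U : Finset V} (hD : D ⊆ N G x) (hU : U ⊆ N G x)
    (hdj : Disjoint D U) (hno : ∀ p ∈ D, ∀ y ∈ U, ¬ G.Adj p y) (d0 : 0 < D.card) (u0 : 0 < U.card)
    (hdeg : ∀ p ∈ D, b + 1 ≤ (D ∩ N G p).card + U.card) (hd : D.card + 2 * b ≤ a + c)
    (hu : U.card + 2 * b ≤ a + c) : False := by
  have hF : D ∪ U ⊆ N G x := union_subset hD hU
  set E := N G x \ (D ∪ U) with hEd
  have hE : E ⊆ N G x := sdiff_subset
  have dE : Disjoint (D ∪ U) E := disjoint_sdiff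
  have hun : ∀ v, dg G (D ∪ U) v = dg G D v + dg G U v := fun v => sum_union hdj
  have z1 : ∀ v ∈ D, dg G U v = 0 := fun v hv =>
    sum_eq_zero fun y hy => if_neg fun e => hno v hv y hy e.symm
  have z2 : ∀ v ∈ U, dg G D v = 0 := fun v hv => sum_eq_zero fun y hy => if_neg (hno y hy v hv)
  have cl : ∀ v ∈ D ∪ U, dg G (D ∪ U) v + dg G E v = b := fun v hv => by
    rw [← dg_link hB (hF hv), add_comm]
    exact sum_sdiff hF
  have cF : ((D ∪ U).card : ℝ) = D.card + U.card := by
    rw [card_union_of_disjoint hdj, Nat.cast_add]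
  have cE : (E.card : ℝ) = a - D.card - U.card := by
    have := card_sdiff_add_card_eq_card hF
    rw [hA, ← hEd] at this
    rw [← this, Nat.cast_add, cF]
    ring
  have f0 : 0 < (D ∪ U).card := d0.trans_le (card_le_card subset_union_left)
  obtain ⟨g, g1, -, g3, g4⟩ := avg (G := G) d0
  obtain ⟨g', g1', -, g3', -⟩ := avg (G := G) u0
  obtain ⟨w, w1, w2, -, -⟩ := avg (G := G) f0
  have hw : (D.card + U.card : ℝ) * w = D.card * g + U.card * g' := by
    rw [← cF, ← w1, ← g1, ← g1', sum_union hdj]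
    congr 1 <;> refine sum_congr rfl fun v hv => ?_
    · rw [hun, z1 v hv, add_zero]
    · rw [hun, z2 v hv, zero_add]
  have hg := g4 (b + 1 - U.card) fun v hv => by
    have : (b + 1 : ℝ) ≤ (D ∩ N G v).card + U.card := by exact_mod_cast hdeg v hv
    rw [dg_eq]
    linarith
  have iA := lower hD hE (dE.mono_left subset_union_left) (b := b) (fun v hv => by
    have := cl v (mem_union_left _ hv)
    rwa [hun, z1 v hv, add_zero] at this) d0 g1 (upperA hB hC hD g1)
  have iB := lower hU hE (dE.mono_left subset_union_right) (b := b) (fun v hv => by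
    have := cl v (mem_union_right _ hv)
    rwa [hun, z2 v hv, zero_add] at this) u0 g1' (upperA hB hC hU g1')
  have iC := lower hF hE dE cl f0 w1 (upperC hB hC (hp_of_le hA hB hab) hF w1)
  rw [← hEd, cF] at iC
  have e0 : (0 : ℝ) ≤ a - D.card - U.card := cE ▸ Nat.cast_nonneg _
  rw [cE] at iA iB iC
  have r1 : (a : ℝ) ≤ 2 * b + 1 := by exact_mod_cast hab
  have r2 : (3 * c + 4 : ℝ) ≤ 2 * b := by exact_mod_cast hbc
  have r3 : (D.card + 2 * b : ℝ) ≤ a + c := by exact_mod_cast hd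
  have r4 : (U.card + 2 * b : ℝ) ≤ a + c := by exact_mod_cast hu
  have r5 : (0 : ℝ) ≤ c := Nat.cast_nonneg _
  generalize (D.card : ℝ) = d at *
  generalize (U.card : ℝ) = u at *
  have t1 := mul_nonneg e0 (mul_nonneg (show (0 : ℝ) ≤ 2 * b + 1 - a by linarith)
    (show (0 : ℝ) ≤ b - c - d + g by linarith))
  have t2 := mul_nonneg e0 (mul_nonneg (show (0 : ℝ) ≤ 2 * b + 1 - a by linarith)
    (show (0 : ℝ) ≤ b - c - 1 by linarith))
  have t3 := mul_nonneg e0 (show (0 : ℝ) ≤ u - g' - 1 by linarith)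
  exact num (B := b + 1) (k := 2 * b + 2 - a) (n := b - c - 1) (d := d) (u := u) (g := g + 1)
    (g' := g' + 1) (w := w + 1) (by linarith) (by linarith) (by linarith) (by linarith)
    (by linarith) (by linarith) g3 g3' (by linarith) (by linarith) (by linarith) (by linarith)
    (by linarith) (by linarith) (by linarith)

/-- The largest number of upper neighbours drops from one layer to the next. -/
lemma up_lt (hA : CA G a) (hB : CB G b) (hC : CC G c) (hab : a ≤ 2 * b + 1)
    (hbc : 3 * c + 4 ≤ 2 * b) (hL : Lip G h) {x p0 : V} {M : ℕ} (hp : p0 ∈ low G h x)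
    (hM : ∀ p ∈ low G h x, (low G (-h) p).card ≤ M) : (low G (-h) x).card ≤ M - 1 := by
  by_contra hn
  set D := low G h x
  set U := low G (-h) x
  have mU : ∀ y ∈ U, G.Adj x y ∧ h y = h x + 1 := fun y hy => by
    have := mem_low.1 hy
    simp only [Pi.neg_apply] at this
    exact ⟨this.1, by omega⟩
  have hno : ∀ p ∈ D, ∀ y ∈ U, ¬ G.Adj p y := fun p hp y hy e =>
    low_disj hL (mU y hy).2 hp e.symm
  have hdj : Disjoint D U := disjoint_left.2 fun v h1 h2 => by
    have := (mem_low.1 h1).2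
    have := (mU v h2).2
    omega
  have hdeg : ∀ p ∈ D, b + 1 ≤ (D ∩ N G p).card + U.card := fun p hp => by
    obtain ⟨p1, p2⟩ := mem_low.1 hp
    have hs : insert x (N G x ∩ N G p) ⊆ (D ∩ N G p) ∪ low G (-h) p := by
      intro v hv
      simp only [mem_insert, mem_inter, mem_N] at hv
      simp only [D, mem_union, mem_inter, mem_N, mem_low, Pi.neg_apply]
      rcases hv with rfl | ⟨h1, h2⟩
      · exact Or.inr ⟨p1.symm, by omega⟩
      · have := hL _ _ h1.symm
        have := hL _ _ h2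
        by_cases e : h v = h p
        · exact Or.inl ⟨⟨h1, by omega⟩, h2⟩
        · exact Or.inr ⟨h2, by omega⟩
    have := (card_le_card hs).trans (card_union_le _ _)
    rw [card_insert_of_notMem (by simp), hB _ _ p1] at this
    have := hM p hp
    omega
  obtain ⟨y, hy⟩ := card_pos.1 (show 0 < U.card by omega)
  obtain ⟨p1, p2⟩ := mem_low.1 hp
  have u1 : U.card + b + 1 ≤ a := low_le1 hA hB hL.neg p1 (by simp only [Pi.neg_apply]; omega)
  have d1 := hdeg p0 hp
  obtain ⟨q, hq⟩ := card_pos.1 (show 0 < (D ∩ N G p0).card by omega)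
  obtain ⟨q1, q2⟩ := mem_inter.1 hq
  obtain ⟨q3, q4⟩ := mem_low.1 q1
  have hu : U.card + 2 * b ≤ a + c := low_le2 hA hB hC hL.neg p1 q3 (mem_N.1 q2)
    (by simp only [Pi.neg_apply]; omega) (by simp only [Pi.neg_apply]; omega)
  have hd : D.card + 2 * b ≤ a + c := by
    by_cases e : ∃ t ∈ U, G.Adj y t
    · obtain ⟨t, t1, t2⟩ := e
      exact low_le2 hA hB hC hL (mU y hy).1 (mU t t1).1 t2 (mU y hy).2 (mU t t1).2
    · have h1 : Disjoint (D ∪ U) (N G x ∩ N G y) := disjoint_left.2 fun v h1 h2 => by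
        have := mem_N.1 (mem_inter.1 h2).2
        rcases mem_union.1 h1 with h1 | h1
        exacts [hno v h1 y hy this.symm, e ⟨v, h1, this⟩]
      have h2 := card_le_card (show D ∪ U ∪ (N G x ∩ N G y) ⊆ N G x from
        union_subset (union_subset (low_sub x) (low_sub x)) inter_subset_left)
      rw [card_union_of_disjoint h1, card_union_of_disjoint hdj, hA, hB _ _ (mU y hy).1] at h2
      have h3 : D ∩ N G p0 ⊆ D.erase p0 := fun w hw =>
        mem_erase.2 ⟨(mem_N.1 (mem_inter.1 hw).2).ne', (mem_inter.1 hw).1⟩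
      have := card_le_card h3
      have := card_erase_add_one hp
      omega
  exact link_false hA hB hC hab hbc (low_sub x) (low_sub x) hdj hno (card_pos.2 ⟨_, hp⟩)
    (card_pos.2 ⟨_, hy⟩) hdeg hd hu

lemma dist_le_half (hc : G.Preconnected) (hA : CA G a) (hB : CB G b) (hC : CC G c)
    (hab : a ≤ 2 * b + 1) (u v : V) : G.dist u v ≤ a := by
  rcases le_total (2 * b) (3 * c + 4) with hbc | hbc
  · exact dist_le_a hc hA hB hC (hp_of_le hA hB hab) hbc u v
  have key : ∀ m x, G.dist u x = m → (low G (-fun v => (G.dist u v : ℤ)) x).card ≤ a - m := by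
    intro m
    induction m with
    | zero => exact fun x _ => (card_le_card (low_sub x)).trans (hA x).le
    | succ m ih =>
      intro x hx
      obtain ⟨p, hp, e⟩ := step hc u x (by omega)
      exact up_lt hA hB hC hab hbc (lip_dist hc u) (p0 := p) (M := a - m)
        (mem_low.2 ⟨hp.symm, by omega⟩) fun q hq => ih q (by
          have := (mem_low.1 hq).2
          omega)
  by_contra hn
  obtain ⟨p, hp, e⟩ := step hc u v (by omega)
  have h1 := key _ p rfl
  have h2 : 0 < (low G (-fun v => (G.dist u v : ℤ)) p).card :=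
    card_pos.2 ⟨v, mem_low.2 ⟨hp, by simp only [Pi.neg_apply]; omega⟩⟩
  omega

end Pool.Agent.Lib.MP_972ec5_co.NE
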