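import Pool.Agent.Lib.MP_972ec5_co.NE.Half

/-! If `1 ≤ c` and `a + 2c < 3b`, a connected `(a,b,c)`-regular graph has diameter at most `8`. -/

namespace Pool.Agent.Lib.MP_972ec5_co.NE

open Finset Classical

variable {V : Type} [Fintype V] {G : SimpleGraph V} {a b c : ℕ} {h : V → ℤ}

lemma inter_inter (x p q : V) : N G x ∩ N G p ∩ (N G x ∩ N G q) = N G x ∩ N G p ∩ N G q := by
  ext v; simp only [mem_inter]; tauto

/-- A set of neighbours of `x` that sees no end of an edge of the link. -/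
lemma edge_bound (hA : CA G a) (hB : CB G b) (hC : CC G c) {x p q : V} {U : Finset V}
    (hU : U ⊆ N G x) (hp : G.Adj x p) (hq : G.Adj x q) (hpq : G.Adj p q)
    (hn : ∀ y ∈ U, ¬ G.Adj p y ∧ ¬ G.Adj q y) : U.card + 2 * b ≤ a + c := by
  have hd : Disjoint U ((N G x ∩ N G p) ∪ (N G x ∩ N G q)) := disjoint_left.2 fun v hv hv' => by
    have := hn v hv
    simp only [mem_union, mem_inter, mem_N] at hv'
    tauto
  have := card_le_card (show U ∪ ((N G x ∩ N G p) ∪ (N G x ∩ N G q)) ⊆ N G x from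
    union_subset hU (union_subset inter_subset_left inter_subset_left))
  have e := card_union_add_card_inter (N G x ∩ N G p) (N G x ∩ N G q)
  rw [card_union_of_disjoint hd, hA] at this
  rw [inter_inter, hB _ _ hp, hB _ _ hq, hC _ _ _ hp hq hpq] at e
  omega

/-- A set of neighbours of `x` that sees no vertex of a triangle of the link. -/
lemma tri_bound (hA : CA G a) (hB : CB G b) (hC : CC G c) {x p q r : V} {U : Finset V}
    (hU : U ⊆ N G x) (hp : G.Adj x p) (hq : G.Adj x q) (hr : G.Adj x r) (hpq : G.Adj p q)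
    (hpr : G.Adj p r) (hqr : G.Adj q r)
    (hn : ∀ y ∈ U, ¬ G.Adj p y ∧ ¬ G.Adj q y ∧ ¬ G.Adj r y) : U.card + 3 * b ≤ a + 3 * c := by
  have hd : Disjoint U ((N G x ∩ N G p) ∪ (N G x ∩ N G q) ∪ (N G x ∩ N G r)) :=
    disjoint_left.2 fun v hv hv' => by
      have := hn v hv
      simp only [mem_union, mem_inter, mem_N] at hv'
      tauto
  have := card_le_card (show U ∪ ((N G x ∩ N G p) ∪ (N G x ∩ N G q) ∪ (N G x ∩ N G r)) ⊆ N G x from
    union_subset hU (union_subset (union_subset inter_subset_left inter_subset_left)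
      inter_subset_left))
  have e := card_union_add_card_inter (N G x ∩ N G p) (N G x ∩ N G q)
  have e' := card_union_add_card_inter ((N G x ∩ N G p) ∪ (N G x ∩ N G q)) (N G x ∩ N G r)
  have e3 := card_union_le (N G x ∩ N G p ∩ N G r) (N G x ∩ N G q ∩ N G r)
  rw [card_union_of_disjoint hd, hA] at this
  rw [inter_inter, hB _ _ hp, hB _ _ hq, hC _ _ _ hp hq hpq] at e
  rw [union_inter_distrib_right, inter_inter, inter_inter, hB _ _ hr] at e'
  rw [hC _ _ _ hp hr hpr, hC _ _ _ hq hr hqr] at e3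
  omega

/-- An independent set of an edge link has at most half of its vertices. -/
lemma ind_le (hB : CB G b) (hC : CC G c) (hc : 1 ≤ c) {x y : V} (hxy : G.Adj x y) {S : Finset V}
    (hS : S ⊆ N G x ∩ N G y) (hi : ∀ s ∈ S, ∀ t ∈ S, ¬ G.Adj s t) : 2 * S.card ≤ b := by
  have hc' : ∀ s ∈ N G x ∩ N G y, (N G x ∩ N G y ∩ N G s).card = c := fun s hs => by
    simp only [mem_inter, mem_N] at hs
    exact hC _ _ _ hxy hs.1 hs.2
  have key : S.card * c ≤ ((N G x ∩ N G y) \ S).card * c := by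
    refine card_mul_le_card_mul G.Adj (fun s hs => ?_) fun t ht => ?_
    · rw [← hc' s (hS hs)]
      refine card_le_card fun v hv => (mem_bipartiteAbove _).2 ⟨mem_sdiff.2 ⟨(mem_inter.1 hv).1,
        fun hv' => hi s hs v hv' (mem_N.1 (mem_inter.1 hv).2)⟩, mem_N.1 (mem_inter.1 hv).2⟩
    · rw [← hc' t (mem_sdiff.1 ht).1]
      refine card_le_card fun v hv => ?_
      obtain ⟨v1, v2⟩ := (mem_bipartiteBelow _).1 hv
      exact mem_inter.2 ⟨hS v1, mem_N.2 v2.symm⟩
  have := Nat.le_of_mul_le_mul_right key hc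
  have e := card_sdiff_add_card_eq_card hS
  rw [hB _ _ hxy] at e
  omega

/-- Edges between the neighbourhoods of two far apart vertices `p`, `y` of a link. -/
lemma cross (hA : CA G a) (hB : CB G b) (hC : CC G c) {x p y : V} (hp : G.Adj x p)
    (hy : G.Adj x y) (hne : p ≠ y) (hn : ¬ G.Adj p y)
    (hd : Disjoint (N G x ∩ N G p) (N G x ∩ N G y)) :
    (b : ℝ) * (4 * b - 2 * c - a) ≤ 2 * ∑ q ∈ N G x ∩ N G y, dg G (N G x ∩ N G p) q := by
  set R := N G x \ insert p (insert y ((N G x ∩ N G p) ∪ (N G x ∩ N G y))) with hR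
  have hs : insert p (insert y ((N G x ∩ N G p) ∪ (N G x ∩ N G y))) ⊆ N G x :=
    insert_subset (mem_N.2 hp) (insert_subset (mem_N.2 hy)
      (union_subset inter_subset_left inter_subset_left))
  have cR := card_sdiff_add_card_eq_card hs
  rw [card_insert_of_notMem (by simp [hne, G.adj_comm y p, hn]),
    card_insert_of_notMem (by simp [hn]), card_union_of_disjoint hd, hA, hB _ _ hp, hB _ _ hy,
    ← hR] at cR
  have one : ∀ p' y', G.Adj x y' → Disjoint (N G x ∩ N G p') (N G x ∩ N G y') →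
      (∀ v ∈ N G x, v ∈ R ∨ v = p' ∨ v = y' ∨ G.Adj p' v ∨ G.Adj y' v) →
      (b : ℝ) * (b - c - 1) ≤ ∑ q ∈ N G x ∩ N G y', dg G (N G x ∩ N G p') q +
        ∑ q ∈ N G x ∩ N G y', dg G R q := fun p' y' hy' hd' hv => by
    rw [← sum_add_distrib]
    have := card_nsmul_le_sum (N G x ∩ N G y')
      (fun q => dg G (N G x ∩ N G p') q + dg G R q) ((b : ℝ) - c - 1) fun q hq => by
        have q0 := disjoint_right.1 hd' hq
        simp only [mem_inter, mem_N] at hq q0
        have h1 : N G x ∩ N G q ⊆ insert y' ((N G x ∩ N G y' ∩ N G q) ∪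
            ((N G x ∩ N G p' ∩ N G q) ∪ (R ∩ N G q))) := fun v hv' => by
          have := hv v (mem_inter.1 hv').1
          simp only [mem_insert, mem_union, mem_inter, mem_N] at hv' ⊢
          rcases this with e | rfl | e | e | e
          · tauto
          · exact absurd ⟨hq.1, hv'.2.symm⟩ q0
          all_goals tauto
        have h2 := (card_le_card h1).trans (card_insert_le _ _)
        have h3 := card_union_le (N G x ∩ N G y' ∩ N G q) ((N G x ∩ N G p' ∩ N G q) ∪ (R ∩ N G q))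
        have h4 := card_union_le (N G x ∩ N G p' ∩ N G q) (R ∩ N G q)
        rw [hB _ _ hq.1] at h2
        rw [hC _ _ _ hy' hq.1 hq.2] at h3
        have : b ≤ c + 1 + ((N G x ∩ N G p' ∩ N G q).card + (R ∩ N G q).card) := by omega
        have : (b : ℝ) ≤ c + 1 + ((N G x ∩ N G p' ∩ N G q).card + (R ∩ N G q).card) := by
          exact_mod_cast this
        rw [dg_eq, dg_eq]
        linarith
    rwa [nsmul_eq_mul, hB _ _ hy'] at this
  have hv : ∀ v ∈ N G x, v ∈ R ∨ v = p ∨ v = y ∨ G.Adj p v ∨ G.Adj y v := fun v hv => by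
    simp only [hR, mem_sdiff, mem_insert, mem_union, mem_inter, mem_N] at hv ⊢
    tauto
  have e1 := one p y hy hd hv
  have e2 := one y p hp hd.symm fun v hv' => by have := hv v hv'; tauto
  rw [dg_comm (N G x ∩ N G y) (N G x ∩ N G p)] at e2
  have e3 : ∑ q ∈ N G x ∩ N G p, dg G R q + ∑ q ∈ N G x ∩ N G y, dg G R q ≤ R.card * (b : ℝ) := by
    rw [← sum_union hd, dg_comm, ← nsmul_eq_mul]
    refine sum_le_card_nsmul _ _ _ fun t ht => ?_
    rw [← dg_link hB (mem_sdiff.1 ht).1]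
    exact sum_le_sum_of_subset_of_nonneg (union_subset inter_subset_left inter_subset_left)
      fun _ _ _ => by positivity
  have : (R.card : ℝ) = a - 2 * b - 2 := by
    rw [← cR]
    push_cast
    ring
  rw [this] at e3
  linarith

/-- Two stars of a link, each centre seeing no leaf of the other star. -/
lemma stars (hA : CA G a) (hB : CB G b) (hC : CC G c) (hab : a + 2 * c < 3 * b) {q x y : V}
    {S T : Finset V} (hx : G.Adj q x) (hy : G.Adj q y)
    (hS : ∀ s ∈ S, G.Adj q s ∧ G.Adj x s ∧ ¬ G.Adj y s)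
    (hT : ∀ t ∈ T, G.Adj q t ∧ G.Adj y t ∧ ¬ G.Adj x t) (hST : ∀ s ∈ S, ∀ t ∈ T, ¬ G.Adj s t)
    {s s' : V} (hs : s ∈ S) (hs' : s' ∈ S) (e : G.Adj s s') :
    S.card + T.card + 2 * c + a < 4 * b := by
  have h1 := tri_bound hA hB hC (U := T) (fun t ht => mem_N.2 (hT t ht).1) hx (hS s hs).1
    (hS s' hs').1 (hS s hs).2.1 (hS s' hs').2.1 e
    fun t ht => ⟨(hT t ht).2.2, hST s hs t ht, hST s' hs' t ht⟩
  rcases T.eq_empty_or_nonempty with rfl | ⟨t, ht⟩
  · have := card_le_card (show S ∪ (N G q ∩ N G x ∩ N G y) ⊆ N G q ∩ N G x from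
      union_subset (fun v hv => by simp [hS v hv]) inter_subset_left)
    rw [card_union_of_disjoint (disjoint_left.2 fun v hv hv' =>
      (hS v hv).2.2 (mem_N.1 (mem_inter.1 hv').2)), hB _ _ hx] at this
    simp only [card_empty]
    omega
  · have := edge_bound hA hB hC (U := S) (fun t ht => mem_N.2 (hS t ht).1) hy (hT t ht).1
      (hT t ht).2.1 fun v hv => ⟨(hS v hv).2.2, fun e => hST v hv t ht e.symm⟩
    omega

/-- No geodesic of length three all of whose triangles point upwards. -/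
lemma line_false (hA : CA G a) (hB : CB G b) (hC : CC G c) (hc : 1 ≤ c) (hab : a + 2 * c < 3 * b)
    (hL : Lip G h) {x0 x1 x2 x3 : V} (a1 : G.Adj x0 x1) (a2 : G.Adj x1 x2) (a3 : G.Adj x2 x3)
    (h1 : h x1 = h x0 + 1) (h2 : h x2 = h x1 + 1) (h3 : h x3 = h x2 + 1)
    (l1 : ∀ w, G.Adj x0 w → G.Adj x1 w → h w = h x1)
    (l2 : ∀ w, G.Adj x1 w → G.Adj x2 w → h w = h x2)
    (l3 : ∀ w, G.Adj x2 w → G.Adj x3 w → h w = h x3) : False := by
  have far : ∀ u v, h v = h u + 2 → ¬ G.Adj u v := fun u v e e' => by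
    have := hL _ _ e'
    omega
  have c1 := cross hA hB hC a1.symm a2 (by rintro rfl; omega) (far _ _ (by omega))
    (disjoint_left.2 fun v v1 v2 => by
      simp only [mem_inter, mem_N] at v1 v2
      have := l1 v v1.2 v1.1
      have := l2 v v2.1 v2.2
      omega)
  have c2 := cross hA hB hC a3 a2.symm (by rintro rfl; omega)
    (fun e => far x1 x3 (by omega) e.symm) (disjoint_left.2 fun v v1 v2 => by
      simp only [mem_inter, mem_N] at v1 v2
      have := l3 v v1.1 v1.2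
      have := l2 v v2.2 v2.1
      omega)
  rw [inter_comm (N G x2) (N G x1)] at c2
  have hb := hB _ _ a2
  obtain ⟨q, hq, hq'⟩ := exists_le_of_sum_le (s := N G x1 ∩ N G x2) (card_pos.1 (by omega))
    (f := fun _ => (4 * b - 2 * c - a : ℝ))
    (g := fun q => dg G (N G x1 ∩ N G x0) q + dg G (N G x2 ∩ N G x3) q) (by
      rw [sum_add_distrib, sum_const, nsmul_eq_mul, hb]
      linarith)
  simp only [dg_eq] at hq'
  simp only [mem_inter, mem_N] at hq
  set S := N G x1 ∩ N G x0 ∩ N G q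
  set T := N G x2 ∩ N G x3 ∩ N G q
  have big : 4 * b ≤ S.card + T.card + 2 * c + a := by
    have : (4 * b : ℝ) ≤ S.card + T.card + 2 * c + a := by linarith
    exact_mod_cast this
  have mS : ∀ s ∈ S, G.Adj q s ∧ G.Adj x1 s ∧ G.Adj x0 s ∧ h s = h x1 := fun s hs => by
    simp only [S, mem_inter, mem_N] at hs
    exact ⟨hs.2, hs.1.1, hs.1.2, l1 s hs.1.2 hs.1.1⟩
  have mT : ∀ s ∈ T, G.Adj q s ∧ G.Adj x2 s ∧ G.Adj x3 s ∧ h s = h x3 := fun s hs => by
    simp only [T, mem_inter, mem_N] at hs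
    exact ⟨hs.2, hs.1.1, hs.1.2, l3 s hs.1.1 hs.1.2⟩
  have nS : ∀ s ∈ S, ¬ G.Adj x2 s := fun s hs e => by
    have := l2 s (mS s hs).2.1 e
    have := (mS s hs).2.2.2
    omega
  have nT : ∀ s ∈ T, ¬ G.Adj x1 s := fun s hs => far _ _ (by have := (mT s hs).2.2.2; omega)
  have hST : ∀ s ∈ S, ∀ t ∈ T, ¬ G.Adj s t := fun s hs t ht => far _ _ (by
    have := (mS s hs).2.2.2
    have := (mT t ht).2.2.2
    omega)
  by_cases e1 : ∃ s ∈ S, ∃ t ∈ S, G.Adj s t
  · obtain ⟨s, hs, t, ht, e⟩ := e1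
    have := stars hA hB hC hab hq.1.symm hq.2.symm
      (fun s hs => ⟨(mS s hs).1, (mS s hs).2.1, nS s hs⟩)
      (fun s hs => ⟨(mT s hs).1, (mT s hs).2.1, nT s hs⟩) hST hs ht e
    omega
  by_cases e2 : ∃ s ∈ T, ∃ t ∈ T, G.Adj s t
  · obtain ⟨s, hs, t, ht, e⟩ := e2
    have := stars hA hB hC hab hq.2.symm hq.1.symm
      (fun s hs => ⟨(mT s hs).1, (mT s hs).2.1, nT s hs⟩)
      (fun s hs => ⟨(mS s hs).1, (mS s hs).2.1, nS s hs⟩)
      (fun t ht s hs e => hST s hs t ht e.symm) hs ht e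
    omega
  have := ind_le hB hC hc a1.symm (S := S) inter_subset_left fun s hs t ht e => e1 ⟨s, hs, t, ht, e⟩
  have := ind_le hB hC hc a3 (S := T) inter_subset_left fun s hs t ht e => e2 ⟨s, hs, t, ht, e⟩
  omega

lemma mem_up {x v : V} : v ∈ low G (-h) x ↔ G.Adj x v ∧ h v = h x + 1 := by
  simp only [mem_low, Pi.neg_apply]
  exact and_congr_right fun _ => by omega

/-- Few upper neighbours at `y` or all triangles on the edge `xy` point upwards. -/
lemma up_or (hA : CA G a) (hB : CB G b) (hC : CC G c) (hL : Lip G h) {x y : V} (e : G.Adj x y)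
    (hy : h y = h x + 1) : (low G (-h) y).card + 2 * b ≤ a + c ∨
      (b + 1 ≤ (low G (-h) x).card ∧ ∀ w, G.Adj x w → G.Adj y w → h w = h y) := by
  by_cases l : ∀ w, G.Adj x w → G.Adj y w → h w = h y
  · refine Or.inr ⟨?_, l⟩
    have := card_le_card (show insert y (N G x ∩ N G y) ⊆ low G (-h) x from
      insert_subset (mem_up.2 ⟨e, hy⟩) fun w hw => by
        simp only [mem_inter, mem_N] at hw
        exact mem_up.2 ⟨hw.1, by have := l w hw.1 hw.2; omega⟩)
    rwa [card_insert_of_notMem (by simp), hB _ _ e] at this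
  · simp only [not_forall] at l
    obtain ⟨w, w1, w2, w3⟩ := l
    have := hL _ _ w1
    have := hL _ _ w2.symm
    exact Or.inl (low_le2 hA hB hC hL.neg e.symm w2 w1 (by simp only [Pi.neg_apply]; omega)
      (by simp only [Pi.neg_apply]; omega))

lemma up_le (hA : CA G a) (hB : CB G b) (hC : CC G c) (hc : 1 ≤ c) (hab : a + 2 * c < 3 * b)
    (hL : Lip G h) {x0 x1 x2 x3 : V} (a1 : G.Adj x0 x1) (a2 : G.Adj x1 x2) (a3 : G.Adj x2 x3)
    (h1 : h x1 = h x0 + 1) (h2 : h x2 = h x1 + 1) (h3 : h x3 = h x2 + 1) :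
    (low G (-h) x3).card + 2 * b ≤ a + c := by
  rcases up_or hA hB hC hL a3 h3 with e | ⟨u2, l3⟩
  · exact e
  rcases up_or hA hB hC hL a2 h2 with e | ⟨u1, l2⟩
  · omega
  rcases up_or hA hB hC hL a1 h1 with e | ⟨-, l1⟩
  · omega
  exact (line_false hA hB hC hc hab hL a1 a2 a3 h1 h2 h3 l1 l2 l3).elim

/-- No triangle among the upper neighbours of the end of a geodesic of length four. -/
lemma no_tri (hA : CA G a) (hB : CB G b) (hC : CC G c) (hc : 1 ≤ c) (hab : a + 2 * c < 3 * b)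
    (hL : Lip G h) {x0 x1 x2 x3 x4 : V} (a1 : G.Adj x0 x1) (a2 : G.Adj x1 x2) (a3 : G.Adj x2 x3)
    (a4 : G.Adj x3 x4) (h1 : h x1 = h x0 + 1) (h2 : h x2 = h x1 + 1) (h3 : h x3 = h x2 + 1)
    (h4 : h x4 = h x3 + 1) {p q r : V} (hp : p ∈ low G (-h) x4) (hq : q ∈ low G (-h) x4)
    (hr : r ∈ low G (-h) x4) (e1 : G.Adj p q) (e2 : G.Adj p r) (e3 : G.Adj q r) : False := by
  rw [mem_up] at hp hq hr
  have := up_le hA hB hC hc hab hL a1 a2 a3 h1 h2 h3
  have := edge_le hB hL a4 h4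
  have := tri_bound hA hB hC (low_sub (h := h) x4) hp.1 hq.1 hr.1 e1 e2 e3 fun y hy =>
    ⟨low_disj hL hp.2 hy, low_disj hL hq.2 hy, low_disj hL hr.2 hy⟩
  omega

lemma dist_le8 (hcon : G.Preconnected) (hA : CA G a) (hB : CB G b) (hC : CC G c) (hc : 1 ≤ c)
    (hab : a + 2 * c < 3 * b) (u x9 : V) : G.dist u x9 ≤ 8 := by
  by_contra hn
  obtain ⟨x8, a9, h9⟩ := step hcon u x9 (by omega)
  obtain ⟨x7, a8, h8⟩ := step hcon u x8 (by omega)
  obtain ⟨x6, a7, h7⟩ := step hcon u x7 (by omega)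
  obtain ⟨y, a6, h6⟩ := step hcon u x6 (by omega)
  have hL := lip_dist hcon u
  set h : V → ℤ := fun v => (G.dist u v : ℤ) with hh
  have d1 := up_le hA hB hC hc hab hL.neg a8.symm a7.symm a6.symm
    (by simp only [Pi.neg_apply, hh]; omega) (by simp only [Pi.neg_apply, hh]; omega)
    (by simp only [Pi.neg_apply, hh]; omega)
  have d2 := @no_tri _ _ _ _ _ _ _ hA hB hC hc hab hL.neg _ _ _ _ _ a9.symm a8.symm a7.symm a6.symm
    (by simp only [Pi.neg_apply, hh]; omega) (by simp only [Pi.neg_apply, hh]; omega)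
    (by simp only [Pi.neg_apply, hh]; omega) (by simp only [Pi.neg_apply, hh]; omega)
  rw [neg_neg] at d1 d2
  have deg : ∀ x ∈ low G h y, b ≤ 2 * (low G h y ∩ N G x).card := fun x hx => by
    obtain ⟨e, e'⟩ := mem_low.1 hx
    simp only [hh] at e'
    obtain ⟨x3, a4, h4⟩ := step hcon u x (by omega)
    obtain ⟨x2, a3, h3⟩ := step hcon u x3 (by omega)
    obtain ⟨x1, a2, h2⟩ := step hcon u x2 (by omega)
    obtain ⟨x0, a1, h1⟩ := step hcon u x1 (by omega)
    have i := ind_le hB hC hc e.symm (S := low G (-h) x ∩ N G y)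
      (inter_subset_inter (low_sub x) Subset.rfl) fun s hs t ht st =>
        no_tri hA hB hC hc hab hL a1 a2 a3 a4 h1 h2 h3 h4 (mem_up.2 ⟨e.symm, e'.symm⟩)
          (mem_inter.1 hs).1 (mem_inter.1 ht).1 (mem_N.1 (mem_inter.1 hs).2)
          (mem_N.1 (mem_inter.1 ht).2) st
    have hs : N G x ∩ N G y ⊆ (low G h y ∩ N G x) ∪ (low G (-h) x ∩ N G y) := fun w hw => by
      simp only [mem_inter, mem_N] at hw
      have := hL _ _ hw.1
      have := hL _ _ hw.2.symm
      simp only [mem_union, mem_inter, mem_up, mem_N]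
      simp only [mem_low, hh] at *
      by_cases e : G.dist u w = G.dist u x
      · exact Or.inl ⟨⟨hw.2, by omega⟩, hw.1⟩
      · exact Or.inr ⟨⟨hw.1, by omega⟩, hw.2⟩
    have := (card_le_card hs).trans (card_union_le _ _)
    rw [hB _ _ e.symm] at this
    omega
  obtain ⟨x, a5, h5⟩ := step hcon u y (by omega)
  have hx : x ∈ low G h y := mem_low.2 ⟨a5.symm, h5.symm⟩
  have g1 := deg x hx
  obtain ⟨z, hz⟩ := card_pos.1 (show 0 < (low G h y ∩ N G x).card by omega)
  obtain ⟨z1, z2⟩ := mem_inter.1 hz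
  have g2 := deg z z1
  have := card_le_card (show (low G h y ∩ N G x) ∪ (low G h y ∩ N G z) ⊆ low G h y from
    union_subset inter_subset_left inter_subset_left)
  rw [card_union_of_disjoint (disjoint_left.2 fun w w1 w2 => d2 hx z1 (mem_inter.1 w1).1
    (mem_N.1 z2) (mem_N.1 (mem_inter.1 w1).2) (mem_N.1 (mem_inter.1 w2).2))] at this
  omega

end Pool.Agent.Lib.MP_972ec5_co.NE
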